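import Pool.Agent.H724.WE.WStm

/-! Project WE (helper724), WD5 and WD6: shift maps on classes (helper297). -/

set_option autoImplicit false

open Finset H724.WE
open scoped Classical

namespace Pool.Agent.H297.WE

variable {α : Type} (X : Dat α)

/-- classes of cut points -/
lemma cls_eq {q q' : ℕ} (h : q ≤ X.L) (h' : q' ≤ X.L) : X.cls q = X.cls q' ↔ X.eqv q q' := by
  unfold Dat.cls
  constructor
  · intro hq
    have h1 := @Quotient.exact _ X.stp _ _ hq
    have h2 : X.eqv (min q X.L) (min q' X.L) := h1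
    rwa [min_eq_left h, min_eq_left h'] at h2
  · intro hq
    refine @Quotient.sound _ X.stp _ _ ?_
    show X.eqv (min q X.L) (min q' X.L)
    rwa [min_eq_left h, min_eq_left h']

lemma rep_le (v : X.V) : X.rep v ≤ X.L := Nat.lt_succ_iff.1 (Quotient.out v).2

lemma cls_rep (v : X.V) : X.cls (X.rep v) = v := by
  unfold Dat.cls Dat.rep
  have h : (⟨min (Quotient.out v).1 X.L, Nat.lt_succ_of_le (Nat.min_le_right _ _)⟩ :
      Fin (X.L + 1)) = Quotient.out v := by
    refine Fin.ext ?_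
    exact min_eq_left (Nat.lt_succ_iff.1 (Quotient.out v).2)
  rw [h]
  exact Quotient.out_eq v

lemma Z0_le {q : ℕ} (h : q ∈ X.Z0) : q ≤ X.L := by
  unfold Dat.Z0 at h
  rw [mem_filter, mem_range] at h
  omega

lemma S_Z0 {q : ℕ} (h : q ∈ X.S) : q ∈ X.Z0 := by
  unfold Dat.Z0
  rw [mem_filter, mem_range]
  exact ⟨Nat.lt_succ_of_le (X.S_le q h), Or.inl h⟩

lemma Z0_Z {q : ℕ} (h : q ∈ X.Z0) : X.cls q ∈ X.Z := by
  unfold Dat.Z
  exact mem_image_of_mem _ h

lemma cp_le (s : Bool) (i : Fin X.n) {o : ℕ} (h : o ≤ X.m i) : X.cp s i o ≤ X.L := by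
  unfold Dat.cp
  cases s
  · have := X.S_le _ (X.am_mem i)
    simp only [Bool.false_eq_true, if_false]; omega
  · have := X.S_le _ (X.bm_mem i)
    simp only [if_true]; omega

lemma cp_Z0 (s : Bool) (i : Fin X.n) {o : ℕ} (hi : X.long i)
    (ho : o ≤ X.r ∨ o = X.l - 1 ∨ o = X.l) : X.cp s i o ∈ X.Z0 := by
  unfold Dat.Z0
  rw [mem_filter, mem_range]
  have h1 : o ≤ X.m i := by
    have := X.r_lt
    unfold Dat.long at hi
    omega
  exact ⟨Nat.lt_succ_of_le (cp_le X s i h1), Or.inr (Or.inr ⟨i, s, o, hi, ho, rfl⟩)⟩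

lemma long_of {i : Fin X.n} {o : ℕ} (h1 : X.l ≤ o) (h2 : o ≤ X.m i) : X.long i := by
  unfold Dat.long
  have := X.m_cases i
  have := X.r_lt
  omega

lemma eqv_edge {i : Fin X.n} {o : ℕ} (h1 : X.l ≤ o) (h2 : o ≤ X.m i) :
    X.eqv (X.a i + o) (X.b i + o) :=
  Conn.edge (src := sa X.a) (dst := sa X.b) (S := X.El) (e := (i, o)) ⟨h1, h2⟩

/-- **WD5.** -/
theorem dShift : S_dShift := by
  intro α X q q' hq hZ hqq
  have hl := X.r_lt
  have hq0 : q ≠ 0 := by
    rintro rfl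
    exact hZ (Z0_Z X (S_Z0 X X.zero_mem))
  have hqL : q ≠ X.L := by
    intro h
    rw [h] at hZ
    exact hZ (Z0_Z X (S_Z0 X X.L_mem))
  have hnZ : ∀ x, x ≤ X.L → X.eqv q x → x ∉ X.Z0 := by
    intro x hx hqx hxZ
    apply hZ
    rw [(cls_eq X hq hx).2 hqx]
    exact Z0_Z X hxZ
  -- the edges at the points of the class
  have key : ∀ (i : Fin X.n) (o : ℕ), X.l ≤ o → o ≤ X.m i → X.eqv q (X.a i + o) →
      X.eqv (X.a i + o + 1) (X.b i + o + 1) ∧ X.eqv (X.a i + o - 1) (X.b i + o - 1) := by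
    intro i o h1 h2 h3
    have hle : X.a i + o ≤ X.L := by
      have := X.S_le _ (X.am_mem i)
      omega
    have h4 := hnZ _ hle h3
    have h5 : o ≠ X.m i := by
      intro h
      apply h4
      rw [h]
      exact S_Z0 X (X.am_mem i)
    have h6 : o ≠ X.l := by
      intro h
      apply h4
      have := cp_Z0 X false i (o := o) (long_of X h1 h2) (Or.inr (Or.inr h))
      simpa [Dat.cp] using this
    constructor
    · have := eqv_edge X (i := i) (o := o + 1) (by omega) (by omega)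
      rwa [← add_assoc, ← add_assoc] at this
    · have := eqv_edge X (i := i) (o := o - 1) (by omega) (by omega)
      have e1 : X.a i + (o - 1) = X.a i + o - 1 := by omega
      have e2 : X.b i + (o - 1) = X.b i + o - 1 := by omega
      rwa [e1, e2] at this
  have hC : q' ∈ {x | x ≤ X.L ∧ X.eqv q x ∧ X.eqv (q + 1) (x + 1) ∧ X.eqv (q - 1) (x - 1)} := by
    refine Conn.mem_of_closed (src := sa X.a) (dst := sa X.b) (S := X.El)
      ⟨hq, Conn.refl _, Conn.refl _, Conn.refl _⟩ ?_ hqq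
    rintro ⟨i, o⟩ ⟨h1, h2⟩
    simp only at h1 h2
    have ha : X.a i + o ≤ X.L := by
      have := X.S_le _ (X.am_mem i)
      omega
    have hb : X.b i + o ≤ X.L := by
      have := X.S_le _ (X.bm_mem i)
      omega
    have he := eqv_edge X h1 h2
    constructor
    · rintro ⟨_, h3, h4, h5⟩
      have h3' : X.eqv q (X.a i + o) := h3
      obtain ⟨k1, k2⟩ := key i o h1 h2 h3'
      exact ⟨hb, h3'.trans he, Conn.trans h4 k1, Conn.trans h5 k2⟩
    · rintro ⟨_, h3, h4, h5⟩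
      have h3' : X.eqv q (X.a i + o) := Conn.trans h3 he.symm
      obtain ⟨k1, k2⟩ := key i o h1 h2 h3'
      exact ⟨ha, h3', Conn.trans h4 k1.symm, Conn.trans h5 k2.symm⟩
  obtain ⟨h1, _, h3, h4⟩ := hC
  exact ⟨by omega, by omega, h1, h3, h4⟩

/-- **WD6.** -/
theorem dAxioms : S_dAxioms := by
  intro hS α X
  have hl := X.r_lt
  -- shifts of classes in terms of any member
  have hup : ∀ q, q ≤ X.L → X.cls q ∉ X.Z → q < X.L ∧ X.up (X.cls q) = X.cls (q + 1) := by
    intro q hq hZ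
    have h1 : X.eqv q (X.rep (X.cls q)) := by
      rw [← cls_eq X hq (rep_le X _), cls_rep]
    obtain ⟨_, h3, h4, h5, _⟩ := hS α X q _ hq hZ h1
    have hZ' : X.cls (X.rep (X.cls q)) ∉ X.Z := by rwa [cls_rep]
    obtain ⟨_, k3, _⟩ := hS α X _ _ h4 hZ' (Conn.refl _)
    refine ⟨h3, ?_⟩
    unfold Dat.up
    rw [cls_eq X k3 h3]
    exact Conn.symm h5
  have hdn : ∀ q, q ≤ X.L → X.cls q ∉ X.Z → 0 < q ∧ X.dn (X.cls q) = X.cls (q - 1) := by
    intro q hq hZ
    have h1 : X.eqv q (X.rep (X.cls q)) := by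
      rw [← cls_eq X hq (rep_le X _), cls_rep]
    obtain ⟨h2, _, h4, _, h5⟩ := hS α X q _ hq hZ h1
    refine ⟨h2, ?_⟩
    unfold Dat.dn
    rw [cls_eq X ((Nat.sub_le _ _).trans h4) ((Nat.sub_le _ _).trans hq)]
    exact Conn.symm h5
  have hlong : ∀ i : X.ι, X.long i.1 := fun i => i.2.1
  refine ⟨fun s i => ?_, fun s i => ?_, fun s i o _ h2 h3 => ?_, fun s i o _ h2 h3 => ?_,
    fun v hv hv' => ?_, fun v hv hv' => ?_⟩
  · exact Z0_Z X (cp_Z0 X s i.1 (hlong i) (Or.inl le_rfl))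
  · exact Z0_Z X (cp_Z0 X s i.1 (hlong i) (Or.inr (Or.inl rfl)))
  · have hm := hlong i
    unfold Dat.long at hm
    have h4 : X.cp s i.1 o ≤ X.L := cp_le X s i.1 (by omega)
    have h5 := (hup _ h4 h3).2
    unfold Dat.pt
    rw [h5]
    congr 1
    unfold Dat.cp
    split_ifs <;> omega
  · have hm := hlong i
    unfold Dat.long at hm
    have h4 : X.cp s i.1 (o + 1) ≤ X.L := cp_le X s i.1 (by omega)
    have h5 := (hdn _ h4 h3).2
    unfold Dat.pt
    rw [h5]
    congr 1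
    unfold Dat.cp
    split_ifs <;> omega
  · have h1 : X.cls (X.rep v) ∉ X.Z := by rwa [cls_rep]
    have h2 := hup _ (rep_le X v) h1
    rw [cls_rep] at h2
    rw [h2.2] at hv' ⊢
    have h3 := (hdn (X.rep v + 1) h2.1 hv').2
    rw [h3, Nat.add_sub_cancel, cls_rep]
  · have h1 : X.cls (X.rep v) ∉ X.Z := by rwa [cls_rep]
    have h2 := hdn _ (rep_le X v) h1
    rw [cls_rep] at h2
    rw [h2.2] at hv' ⊢
    have h3 := (hup _ ((Nat.sub_le _ _).trans (rep_le X v)) hv').2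
    rw [h3, Nat.sub_add_cancel h2.1, cls_rep]

end Pool.Agent.H297.WE

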